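import Pool.Agent.LeoK.UpStmts

/-!
Squad leok, module COV: an integral basis of an ideal and the volume of its fundamental domain.
-/

set_option autoImplicit false

open NumberField IsDedekindDomain Module MeasureTheory

namespace Pool.Agent.LeoK.H56

variable {k : Type} [Field k] [NumberField k]

/-- the coordinates of integers, as a linear map over the integers -/
noncomputable def lamZ (k : Type) [Field k] [NumberField k] : 𝓞 k →ₗ[ℤ] (Sg k → ℝ) where
  toFun x := lam (x : k)
  map_add' x y := by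
    funext s
    simp [lam]
  map_smul' n x := by
    funext s
    simp [lam]

theorem lamZ_apply (x : 𝓞 k) : lamZ k x = lam (x : k) := rfl

theorem repr_lam (Φ : Frame k) (x : 𝓞 k) (i : Φ.κ) :
    Φ.B.repr (lam (x : k)) i = (Φ.om.repr x i : ℝ) := by
  classical
  have h1 : lam (x : k) = ∑ j, (Φ.om.repr x j : ℝ) • Φ.B j := by
    rw [← lamZ_apply]
    conv_lhs => rw [← Φ.om.sum_repr x]
    rw [map_sum]
    refine Finset.sum_congr rfl fun j _ => ?_
    rw [map_smul, lamZ_apply, ← Φ.hB j, Int.cast_smul_eq_zsmul]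
  rw [h1, map_sum, Finsupp.finsetSum_apply]
  simp only [map_smul, Finsupp.smul_apply, Basis.repr_self, smul_eq_mul]
  rw [Finset.sum_eq_single i]
  · simp
  · intro j _ hj
    simp [hj]
  · intro h
    exact absurd (Finset.mem_univ _) h

theorem cov : CovStmt := by
  classical
  intro k _ _ _ Φ I hI
  let bI : Basis Φ.κ ℤ I := Ideal.selfBasis Φ.om I hI
  let w : Φ.κ → (Sg k → ℝ) := fun i => lam (((bI i : 𝓞 k)) : k)
  have hdet : Φ.B.det w = ((Φ.om.det ((↑) ∘ bI) : ℤ) : ℝ) := by
    rw [Basis.det_apply, Basis.det_apply]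
    have : Φ.B.toMatrix w = (Int.castRingHom ℝ).mapMatrix (Φ.om.toMatrix ((↑) ∘ bI)) := by
      ext i j
      simp only [Basis.toMatrix_apply, w, RingHom.mapMatrix_apply, Matrix.map_apply,
        Function.comp_apply]
      exact repr_lam Φ _ i
    rw [this, ← RingHom.map_det]
    rfl
  have hnorm := Ideal.natAbs_det_basis_change Φ.om I bI
  have hne : (Ideal.absNorm I : ℝ) ≠ 0 := by
    exact_mod_cast (Ideal.absNorm_ne_zero_iff I).2 (Ideal.finiteQuotientOfFreeOfNeBot I hI)
  have habs : |Φ.B.det w| = (Ideal.absNorm I : ℝ) := by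
    rw [hdet, ← Int.cast_abs, Int.abs_eq_natAbs, hnorm]
    simp
  have hunit : IsUnit (Φ.B.det w) := by
    rw [isUnit_iff_ne_zero]
    intro h0
    rw [h0, abs_zero] at habs
    exact hne habs.symm
  obtain ⟨hli, hsp⟩ := (Module.Basis.is_basis_iff_det Φ.B).2 hunit
  refine ⟨Basis.mk hli hsp.ge, ?_, ?_⟩
  · intro x
    have h1 : Set.range (Basis.mk hli hsp.ge) = lamZ k '' Set.range (fun i => (bI i : 𝓞 k)) := by
      rw [← Set.range_comp]
      congr 1
      funext i
      rw [Basis.mk_apply]
      rfl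
    rw [h1, Submodule.span_image]
    have h2 : Submodule.span ℤ (Set.range (fun i => (bI i : 𝓞 k))) = I.restrictScalars ℤ := by
      have h3 := congrArg (Submodule.map ((Submodule.subtype I).restrictScalars ℤ)) bI.span_eq
      rw [Submodule.map_span, ← Set.range_comp] at h3
      have h4 : (⇑((Submodule.subtype I).restrictScalars ℤ) ∘ ⇑bI) = fun i => (bI i : 𝓞 k) := rfl
      rw [h4] at h3
      rw [h3]
      ext y
      simp
    rw [h2]
    constructor
    · rintro ⟨y, hy, rfl⟩
      exact ⟨y, hy, rfl⟩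
    · rintro ⟨y, hy, rfl⟩
      exact ⟨y, hy, rfl⟩
  · rw [ZSpan.measure_fundamentalDomain _ volume Φ.B, ENNReal.toReal_mul,
      ENNReal.toReal_ofReal (abs_nonneg _)]
    have h5 : Φ.B.det ⇑(Basis.mk hli hsp.ge) = Φ.B.det w := by rw [Basis.coe_mk]
    rw [h5, habs, mul_comm]
    rfl

end Pool.Agent.LeoK.H56
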